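import Pool.Agent.R475.MadB.Build

/-!
# The parametrized diamond `♢(ω^ω, =^∞)` gives small mad families of block subspaces

The definitions (`Diamond`, `IsBlock`, `IsMadBlock`, `IsMadFamily`, `aVec`) are in
`Pool.Agent.R475.MadB.Defs`.
-/

set_option autoImplicit false

namespace Pool.Agent.Results.MP_1dfcde_lc.MadBlockFamily

open Cardinal Pool.Agent.R475.MadB

/-- For every countable field `F` the principle `♢(ω^ω, =^∞)` implies that there is a mad family of
block subspaces of `E = ⊕_ℕ F` of cardinality `ℵ₁`. The family is also maximal among the almost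
disjoint families of arbitrary subspaces, and `𝔞_{vec,F} = ℵ₁`. -/
theorem result (F : Type) [Field F] [Countable F] (h : Diamond) :
    (∃ 𝒜 : Set (Submodule F (ℕ →₀ F)), IsMadBlock 𝒜 ∧ IsMadFamily 𝒜 ∧ #𝒜 = ℵ₁) ∧
      aVec F = ℵ₁ := by
  obtain ⟨𝒜, h1, h2, h3, h4⟩ := exists_mad (F := F) h
  refine ⟨⟨𝒜, h1, h2, h4⟩, le_antisymm (csInf_le' ⟨𝒜, h2, h3, h4⟩) ?_⟩
  refine le_csInf ⟨_, 𝒜, h2, h3, h4⟩ ?_
  rintro _ ⟨ℬ, hℬ, hinf, rfl⟩
  exact aleph_one_le_aVec hℬ hinf

end Pool.Agent.Results.MP_1dfcde_lc.MadBlockFamily
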